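import Pool.Agent.Lib.MP_8528c3_al.AN.All

/-!
# Free Burnside groups of large odd exponent have finite Assouad-Nagata dimension

There is `N0` such that for every rank `m` and every odd exponent `n ≥ N0` the free Burnside group
`B(m,n)`, with the word metric of any finite generating set, has Assouad-Nagata dimension at most
`7`: asymptotic dimension at most `7` with a linear control function.
-/

namespace Pool.Agent.Results.MP_8528c3_al.AssouadNagata

/-- The free Burnside group `B(m,n)`: the quotient of the free group of rank `m` by the normal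
subgroup generated by all `n`-th powers. -/
abbrev FreeBurnside (m n : ℕ) : Type :=
  FreeGroup (Fin m) ⧸ Subgroup.normalClosure {h : FreeGroup (Fin m) | ∃ f, h = f ^ n}

/-- The word length of `g` with respect to the set `S`: the least length of a product of elements
of `S` and their inverses which is equal to `g`. -/
noncomputable def wordLength {G : Type} [Group G] (S : Set G) (g : G) : ℕ :=
  sInf {k | ∃ l : List G, l.length = k ∧ (∀ s ∈ l, s ∈ S ∨ s⁻¹ ∈ S) ∧ l.prod = g}

/-- The word metric of `S`. -/
noncomputable def wordDist {G : Type} [Group G] (S : Set G) (g h : G) : ℝ :=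
  (wordLength S (g⁻¹ * h) : ℝ)

/-- Assouad-Nagata dimension at most `k`: for some `A`, for every `r ≥ 1`, there is a cover of `X`
by sets of diameter at most `A r` such that every ball of radius `r` meets at most `k + 1` of these
sets. -/
def ANdimLE {X : Type} (d : X → X → ℝ) (k : ℕ) : Prop :=
  ∃ A : ℝ, ∀ r : ℝ, 1 ≤ r → ∃ U : Set (Set X), (∀ x, ∃ V ∈ U, x ∈ V) ∧
    (∀ V ∈ U, ∀ x ∈ V, ∀ y ∈ V, d x y ≤ A * r) ∧
    ∀ x, {V | V ∈ U ∧ ∃ y ∈ V, d x y ≤ r}.encard ≤ k + 1

/-- All free Burnside groups of odd exponent `n ≥ N0` (of any finite rank, with the word metric of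
any finite generating set) have Assouad-Nagata dimension at most `7`. -/
theorem result : ∃ N0 : ℕ, ∀ m n : ℕ, N0 ≤ n → Odd n →
    ∀ S : Set (FreeBurnside m n), S.Finite → Subgroup.closure S = ⊤ →
      ANdimLE (wordDist S) 7 :=
  BAN.okM15

end Pool.Agent.Results.MP_8528c3_al.AssouadNagata
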